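import Mathlib

/-!
# Two-way multihead automata and deterministic pushdown automata
-/

namespace Pool.Agent.Lib.MP_9277c3_lc

/-- What a head sees: the left marker, a letter of the input, or the right marker. -/
inductive Cell (α : Type) : Type
  | left : Cell α
  | letter (a : α) : Cell α
  | right : Cell α

/-- The tape with input `x`: the left marker at position `0`, the letters of `x` at the positions
`1, ..., |x|`, the right marker at position `|x| + 1`. -/
def cell {α : Type} (x : List α) : ℕ → Cell α
  | 0 => Cell.left
  | i + 1 => match x[i]? with
    | some a => Cell.letter a
    | none => Cell.right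

/-- Moves of a head. -/
inductive Move : Type
  | left : Move
  | stay : Move
  | right : Move

/-- The new position of a head; the heads never leave the tape, whose last position is `n + 1`. -/
def Move.apply (n : ℕ) : Move → ℕ → ℕ
  | Move.left, i => i - 1
  | Move.stay, i => i
  | Move.right, i => min (i + 1) (n + 1)

/-- A two-way deterministic finite automaton with `h` read-only heads. -/
structure MultiheadDFA (α : Type) (h : ℕ) where
  State : Type
  finite_state : Finite State
  start : State
  accept : Set State
  next : State → (Fin h → Cell α) → State × (Fin h → Move)

namespace MultiheadDFA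

variable {α : Type} {h : ℕ} (A : MultiheadDFA α h)

/-- One step: the automaton reads the cells under its heads, changes its state and moves its
heads. -/
def step (x : List α) (c : A.State × (Fin h → ℕ)) : A.State × (Fin h → ℕ) :=
  ((A.next c.1 fun j => cell x (c.2 j)).1,
    fun j => ((A.next c.1 fun j => cell x (c.2 j)).2 j).apply x.length (c.2 j))

/-- The automaton accepts `x`: started with all heads on the left marker, it reaches an accepting
state. -/
def Accepts (x : List α) : Prop :=
  ∃ t : ℕ, ((A.step x)^[t] (A.start, fun _ => 0)).1 ∈ A.accept

end MultiheadDFA

/-- A deterministic pushdown automaton with a two-way input head. `next q c X` is the move in state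
`q`, when the head sees `c` and `X` is on top of the stack: a new state, a move of the head, and the
list of symbols (first symbol on top) which replaces `X`; if it is `none` then the automaton halts.
The automaton accepts as soon as its state and the cell under its head are `accepting`.
In a one-way automaton no move of the head goes to the left. -/
structure DPDA (α : Type) where
  State : Type
  Stack : Type
  finite_state : Finite State
  finite_stack : Finite Stack
  start : State
  bottom : Stack
  accepting : State → Cell α → Prop
  next : State → Cell α → Stack → Option (State × Move × List Stack)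

namespace DPDA

variable {α : Type} (M : DPDA α)

/-- One step on configurations (state, position of the head, stack). -/
inductive Step (x : List α) : M.State × ℕ × List M.Stack → M.State × ℕ × List M.Stack → Prop
  | mk (q : M.State) (i : ℕ) (X : M.Stack) (γ : List M.Stack) (q' : M.State) (mv : Move)
      (β : List M.Stack) (h : M.next q (cell x i) X = some (q', mv, β)) :
      Step x (q, i, X :: γ) (q', mv.apply x.length i, β ++ γ)

/-- `Steps x t c c'`: the automaton goes from the configuration `c` to `c'` in `t` steps. -/
inductive Steps (x : List α) :
    ℕ → M.State × ℕ × List M.Stack → M.State × ℕ × List M.Stack → Prop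
  | refl (c : M.State × ℕ × List M.Stack) : Steps x 0 c c
  | head (t : ℕ) (c c' c'' : M.State × ℕ × List M.Stack) (h : M.Step x c c')
      (h' : Steps x t c' c'') : Steps x (t + 1) c c''

/-- Started in the state `start`, with its head on the first position after the left marker and
`bottom` on its stack, the automaton is after `t` steps in an accepting configuration with `l`
symbols on its stack. -/
def AcceptsAt (t l : ℕ) (x : List α) : Prop :=
  ∃ q i γ, M.Steps x t (M.start, 1, [M.bottom]) (q, i, γ) ∧ γ.length = l ∧
    M.accepting q (cell x i)

/-- The automaton accepts `x`. -/
def Accepts (x : List α) : Prop := ∃ t l, M.AcceptsAt t l x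

/-- `Pops x k q i β q' i'`: started in state `q` with its head at position `i` and the symbols `β`
on top of its stack, the automaton removes exactly these symbols (with everything that replaced
them), and it is then in the state `q'` with its head at position `i'`; the tree of this part of the
run has Strahler number at most `k`. Here the state `none` means that the automaton has accepted;
what is left on the stack is then removed, and each symbol left counts as a leaf of the tree.

The tree has a node for each list of symbols to be removed: the empty list is a leaf; the list `[X]`
has one child, the list which replaces `X` (or it is a leaf, if the automaton has accepted); the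
list `X :: β`, with `β` not empty, has the two children `[X]` and `β`. -/
inductive Pops (x : List α) : ℕ → Option M.State → ℕ → List M.Stack → Option M.State → ℕ → Prop
  | nil (k : ℕ) (q : Option M.State) (i : ℕ) : Pops x k q i [] q i
  | halt (k : ℕ) (i : ℕ) (X : M.Stack) : Pops x k none i [X] none i
  | accept (k : ℕ) (q : M.State) (i : ℕ) (X : M.Stack) (h : M.accepting q (cell x i)) :
      Pops x k (some q) i [X] none i
  | step (k : ℕ) (q : M.State) (i : ℕ) (X : M.Stack) (q₁ : M.State) (mv : Move)
      (β : List M.Stack) (q₂ : Option M.State) (i₂ : ℕ) (h : ¬M.accepting q (cell x i))
      (h₁ : M.next q (cell x i) X = some (q₁, mv, β))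
      (h₂ : Pops x k (some q₁) (mv.apply x.length i) β q₂ i₂) : Pops x k (some q) i [X] q₂ i₂
  | left (k : ℕ) (q : Option M.State) (i : ℕ) (X : M.Stack) (β : List M.Stack)
      (q₁ : Option M.State) (i₁ : ℕ) (q₂ : Option M.State) (i₂ : ℕ) (hβ : β ≠ [])
      (h₁ : Pops x k q i [X] q₁ i₁) (h₂ : Pops x (k + 1) q₁ i₁ β q₂ i₂) :
      Pops x (k + 1) q i (X :: β) q₂ i₂
  | right (k : ℕ) (q : Option M.State) (i : ℕ) (X : M.Stack) (β : List M.Stack)
      (q₁ : Option M.State) (i₁ : ℕ) (q₂ : Option M.State) (i₂ : ℕ) (hβ : β ≠ [])
      (h₁ : Pops x (k + 1) q i [X] q₁ i₁) (h₂ : Pops x k q₁ i₁ β q₂ i₂) :
      Pops x (k + 1) q i (X :: β) q₂ i₂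

/-- The automaton accepts `x` by a run whose tree has Strahler number at most `k`: the bottom symbol
is removed and the automaton has accepted on the way, or is in an accepting configuration then. -/
def AcceptsWithin (k : ℕ) (x : List α) : Prop :=
  ∃ (q : Option M.State) (i : ℕ), M.Pops x k (some M.start) 1 [M.bottom] q i ∧
    ∀ q', q = some q' → M.accepting q' (cell x i)

end DPDA

end Pool.Agent.Lib.MP_9277c3_lc
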