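import Pool.Agent.Lib.MP_9277c3_lc.helper78.Defs

/-!
# The walk along the heavy path
-/

namespace Pool.Agent.Lib.MP_9277c3_lc

namespace DPDA

open Classical

variable {α : Type} (M : DPDA α) (x : List α)

/-- Nodes of run trees. -/
abbrev Node : Type := Option M.State × ℕ × List M.Stack

/-- Results. -/
abbrev Conf : Type := Option M.State × ℕ

variable {M x}

theorem Pops.succ {k : ℕ} {q : Option M.State} {i : ℕ} {β : List M.Stack} {q' : Option M.State}
    {i' : ℕ} (h : M.Pops x k q i β q' i') : M.Pops x (k + 1) q i β q' i' := by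
  induction h with
  | nil k q i => exact Pops.nil _ _ _
  | halt k i X => exact Pops.halt _ _ _
  | accept k q i X h => exact Pops.accept _ _ _ _ h
  | step k q i X q₁ mv β q₂ i₂ h h₁ _ ih => exact Pops.step _ _ _ _ _ _ _ _ _ h h₁ ih
  | left k q i X β q₁ i₁ q₂ i₂ hβ _ _ ih₁ ih₂ => exact Pops.left _ _ _ _ _ _ _ _ _ hβ ih₁ ih₂
  | right k q i X β q₁ i₁ q₂ i₂ hβ _ _ ih₁ ih₂ => exact Pops.right _ _ _ _ _ _ _ _ _ hβ ih₁ ih₂

theorem Pops.mono {k k' : ℕ} (hk : k ≤ k') {q : Option M.State} {i : ℕ} {β : List M.Stack}
    {q' : Option M.State} {i' : ℕ} (h : M.Pops x k q i β q' i') : M.Pops x k' q i β q' i' := by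
  induction hk with
  | refl => exact h
  | step _ ih => exact ih.succ

variable (M x) in
/-- One step of the automaton on the top symbol. -/
noncomputable def hstep : Option M.State → ℕ → M.Stack → Option M.Node
  | none, i, _ => some (none, i, [])
  | some q, i, X => if M.accepting q (cell x i) then some (none, i, []) else
      (M.next q (cell x i) X).map fun r => (some r.1, r.2.1.apply x.length i, r.2.2)

theorem pops_singleton_iff {k : ℕ} {q : Option M.State} {i : ℕ} {X : M.Stack}
    {q' : Option M.State} {i' : ℕ} : M.Pops x k q i [X] q' i' ↔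
      ∃ v : M.Node, M.hstep x q i X = some v ∧ M.Pops x k v.1 v.2.1 v.2.2 q' i' := by
  constructor
  · intro h
    cases h with
    | halt => exact ⟨(none, i, []), rfl, Pops.nil _ _ _⟩
    | accept _ q _ _ h => exact ⟨(none, i, []), by simp [hstep, h], Pops.nil _ _ _⟩
    | step _ q _ _ q₁ mv β _ _ h h₁ h₂ =>
      exact ⟨(some q₁, mv.apply x.length i, β), by simp [hstep, h, h₁], h₂⟩
    | left _ _ _ _ _ _ _ _ _ hβ => exact absurd rfl hβ
    | right _ _ _ _ _ _ _ _ _ hβ => exact absurd rfl hβ
  · rintro ⟨v, h, hv⟩
    cases q with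
    | none =>
      simp only [hstep, Option.some.injEq] at h
      subst h
      cases hv
      exact Pops.halt _ _ _
    | some q =>
      simp only [hstep] at h
      split_ifs at h with ha
      · rw [Option.some.injEq] at h
        subst h
        cases hv
        exact Pops.accept _ _ _ _ ha
      · rw [Option.map_eq_some_iff] at h
        obtain ⟨⟨q₁, mv, β⟩, hr, rfl⟩ := h
        exact Pops.step _ _ _ _ _ _ _ _ _ ha hr hv

/-- Runs are deterministic. -/
theorem Pops.unique {k : ℕ} {q : Option M.State} {i : ℕ} {β : List M.Stack}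
    {q' : Option M.State} {i' : ℕ} (h : M.Pops x k q i β q' i') : ∀ {k₂ q₂ i₂},
    M.Pops x k₂ q i β q₂ i₂ → q₂ = q' ∧ i₂ = i' := by
  induction h with
  | nil k q i =>
    intro k₂ q₂ i₂ h
    cases h
    exact ⟨rfl, rfl⟩
  | halt k i X =>
    intro k₂ q₂ i₂ h
    rw [pops_singleton_iff] at h
    obtain ⟨v, hv, h⟩ := h
    simp only [hstep, Option.some.injEq] at hv
    subst hv
    cases h
    exact ⟨rfl, rfl⟩
  | accept k q i X ha =>
    intro k₂ q₂ i₂ h
    rw [pops_singleton_iff] at h
    obtain ⟨v, hv, h⟩ := h
    simp only [hstep, if_pos ha, Option.some.injEq] at hv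
    subst hv
    cases h
    exact ⟨rfl, rfl⟩
  | step k q i X q₁ mv β q₂ i₂ ha h₁ _ ih =>
    intro k₂ q₃ i₃ h
    rw [pops_singleton_iff] at h
    obtain ⟨v, hv, h⟩ := h
    simp only [hstep, if_neg ha, h₁, Option.map_some, Option.some.injEq] at hv
    subst hv
    exact ih h
  | left k q i X β q₁ i₁ q₂ i₂ hβ _ _ ih₁ ih₂ =>
    intro k₂ q₃ i₃ h
    cases h with
    | halt => exact absurd rfl hβ
    | accept => exact absurd rfl hβ
    | step => exact absurd rfl hβ
    | left _ _ _ _ _ q₁' i₁' _ _ _ g₁ g₂ =>
      obtain ⟨rfl, rfl⟩ := ih₁ g₁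
      exact ih₂ g₂
    | right _ _ _ _ _ q₁' i₁' _ _ _ g₁ g₂ =>
      obtain ⟨rfl, rfl⟩ := ih₁ g₁
      exact ih₂ g₂
  | right k q i X β q₁ i₁ q₂ i₂ hβ _ _ ih₁ ih₂ =>
    intro k₂ q₃ i₃ h
    cases h with
    | halt => exact absurd rfl hβ
    | accept => exact absurd rfl hβ
    | step => exact absurd rfl hβ
    | left _ _ _ _ _ q₁' i₁' _ _ _ g₁ g₂ =>
      obtain ⟨rfl, rfl⟩ := ih₁ g₁
      exact ih₂ g₂
    | right _ _ _ _ _ q₁' i₁' _ _ _ g₁ g₂ =>
      obtain ⟨rfl, rfl⟩ := ih₁ g₁
      exact ih₂ g₂

variable (M x) in
/-- Runs with smaller Strahler number. -/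
def Sub : ℕ → M.Node → M.Conf → Prop
  | 0, _, _ => False
  | k + 1, v, c => M.Pops x k v.1 v.2.1 v.2.2 c.1 c.2

theorem pops_cons_iff {k : ℕ} {q : Option M.State} {i : ℕ} {X : M.Stack} {β : List M.Stack}
    (hβ : β ≠ []) {c : M.Conf} : M.Pops x k q i (X :: β) c.1 c.2 ↔
      (∃ c₁ : M.Conf, M.Sub x k (q, i, [X]) c₁ ∧ M.Pops x k c₁.1 c₁.2 β c.1 c.2) ∨
      ∃ c₁ : M.Conf, M.Pops x k q i [X] c₁.1 c₁.2 ∧ M.Sub x k (c₁.1, c₁.2, β) c := by
  obtain ⟨q', i'⟩ := c
  constructor
  · intro h
    simp only at h
    cases h with
    | halt => exact absurd rfl hβ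
    | accept => exact absurd rfl hβ
    | step => exact absurd rfl hβ
    | left k _ _ _ _ q₁ i₁ _ _ _ g₁ g₂ => exact Or.inl ⟨(q₁, i₁), g₁, g₂⟩
    | right k _ _ _ _ q₁ i₁ _ _ _ g₁ g₂ => exact Or.inr ⟨(q₁, i₁), g₁, g₂⟩
  · cases k with
    | zero =>
      rintro (⟨c₁, h₁, _⟩ | ⟨c₁, _, h₂⟩)
      · exact absurd h₁ id
      · exact absurd h₂ id
    | succ k =>
      rintro (⟨c₁, h₁, h₂⟩ | ⟨c₁, h₁, h₂⟩)
      · exact Pops.left _ _ _ _ _ _ _ _ _ hβ h₁ h₂
      · exact Pops.right _ _ _ _ _ _ _ _ _ hβ h₁ h₂

theorem Sub.pops {k : ℕ} {v : M.Node} {c : M.Conf} (h : M.Sub x k v c) :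
    M.Pops x k v.1 v.2.1 v.2.2 c.1 c.2 := by
  cases k with
  | zero => exact absurd h id
  | succ k => exact Pops.succ h

theorem Sub.mono {k k' : ℕ} (hk : k ≤ k') {v : M.Node} {c : M.Conf} (h : M.Sub x k v c) :
    M.Sub x k' v c := by
  cases k with
  | zero => exact absurd h id
  | succ k =>
    obtain ⟨k', rfl⟩ : ∃ m, k' = m + 1 := ⟨k' - 1, by omega⟩
    exact Pops.mono (by omega) h

variable (M x) in
/-- The oracle for the runs of smaller Strahler number. -/
noncomputable def orc (k : ℕ) (v : M.Node) : Option M.Conf :=
  if h : ∃ c, M.Sub x k v c then some h.choose else none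

theorem orc_eq_some {k : ℕ} {v : M.Node} {c : M.Conf} : M.orc x k v = some c ↔ M.Sub x k v c := by
  unfold orc
  split_ifs with h
  · rw [Option.some.injEq]
    constructor
    · rintro rfl
      exact h.choose_spec
    · intro hc
      obtain ⟨h1, h2⟩ := (Sub.pops hc).unique (Sub.pops h.choose_spec)
      exact Prod.ext h1 h2
  · constructor
    · intro h'; exact absurd h' (by simp)
    · intro hc; exact absurd ⟨c, hc⟩ h

theorem orc_eq_none {k : ℕ} {v : M.Node} : M.orc x k v = none ↔ ∀ c, ¬M.Sub x k v c := by
  unfold orc
  split_ifs with h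
  · simp only [reduceCtorEq, false_iff, not_forall, not_not]
    exact h
  · simp only [true_iff]
    exact fun c hc => h ⟨c, hc⟩

/-! ### The walk -/

section walk

variable (M x)
variable (O : M.Node → Option M.Conf)

/-- The next node of the heavy path. -/
noncomputable def nxt : M.Node → Option M.Node
  | (_, _, []) => none
  | (q, i, [X]) => M.hstep x q i X
  | (q, i, X :: Y :: β) => match O (q, i, [X]) with
    | some c => some (c.1, c.2, Y :: β)
    | none => some (q, i, [X])

/-- Is the first child heavy? -/
def pend : M.Node → Prop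
  | (_, _, []) => False
  | (_, _, [_]) => False
  | (q, i, X :: _ :: _) => O (q, i, [X]) = none

/-- One step of the walk; the second component is the last node whose second child is pending. -/
noncomputable def stepW (p : Option M.Node × Option M.Node) : Option M.Node × Option M.Node :=
  match p.1 with
  | none => p
  | some v => if v.2.2 = [] then p else (M.nxt x O v, if M.pend O v then some v else p.2)

/-- The node after `t` steps. -/
noncomputable def node (v : M.Node) (t : ℕ) : Option M.Node := (fun w => w.bind (M.nxt x O))^[t] (some v)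

/-- The last pending node before the time `t`. -/
noncomputable def cand (v : M.Node) : ℕ → Option M.Node
  | 0 => none
  | t + 1 => match M.node x O v t with
    | none => cand v t
    | some w => if M.pend O w then some w else cand v t

/-- Scanning the path up to the node `tgt`. -/
noncomputable def scan (tgt : Option M.Node) (p : Option M.Node × Option M.Node) :
    Option M.Node × Option M.Node := if p.1 = tgt then p else M.stepW x O p

/-- One step of the way back. -/
noncomputable def asc (v : M.Node) (N : ℕ) (p : Option M.Node × Option M.Conf) :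
    Option M.Node × Option M.Conf :=
  match p with
  | (none, r) => (none, r)
  | (some t, none) => (some t, none)
  | (some t, some r) => match ((M.scan x O (some t))^[N] (some v, none)).2 with
    | none => (none, some r)
    | some w => (some w, O (r.1, r.2, w.2.2.tail))

/-- The walk down and back. -/
noncomputable def walk (N : ℕ) (v : M.Node) : Option M.Conf :=
  match ((M.stepW x O)^[N] (some v, none)).1 with
  | none => none
  | some e => if e.2.2 = [] then ((M.asc x O v N)^[N] (some e, some (e.1, e.2.1))).2 else none

end walk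

variable {O : M.Node → Option M.Conf}

theorem node_zero (v : M.Node) : M.node x O v 0 = some v := rfl

theorem node_succ (v : M.Node) (t : ℕ) :
    M.node x O v (t + 1) = (M.node x O v t).bind (M.nxt x O) := by
  unfold node
  rw [Function.iterate_succ_apply']

theorem node_add (v : M.Node) (s t : ℕ) {w : M.Node} (h : M.node x O v s = some w) :
    M.node x O v (s + t) = M.node x O w t := by
  unfold node at h ⊢
  rw [Nat.add_comm, Function.iterate_add_apply, h]

theorem nxt_nil (q : Option M.State) (i : ℕ) : M.nxt x O (q, i, []) = none := rfl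

theorem nxt_of_nil {w : M.Node} (h : w.2.2 = []) : M.nxt x O w = none := by
  obtain ⟨q, i, β⟩ := w
  simp only at h
  subst h
  rfl

/-- Along a path that reaches the end all nodes before the end are proper. -/
theorem node_of_le {v e : M.Node} {L : ℕ} (hL : M.node x O v L = some e) (he : e.2.2 = []) {t : ℕ}
    (ht : t < L) : ∃ w, M.node x O v t = some w ∧ w.2.2 ≠ [] := by
  have h1 : ∀ m, M.node x O v t = none → M.node x O v (t + m) = none := by
    intro m h
    induction m with
    | zero => exact h
    | succ m ih => rw [← Nat.add_assoc, node_succ, ih]; rfl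
  have h2 : M.node x O v t ≠ none := by
    intro h
    have := h1 (L - t) h
    rw [show t + (L - t) = L by omega, hL] at this
    exact absurd this (by simp)
  obtain ⟨w, hw⟩ := Option.ne_none_iff_exists'.1 h2
  refine ⟨w, hw, fun hw' => ?_⟩
  have h3 : M.node x O v (t + 1) = none := by
    rw [node_succ, hw]
    exact nxt_of_nil hw'
  have h4 : ∀ m, M.node x O v (t + 1 + m) = none := by
    intro m
    induction m with
    | zero => exact h3
    | succ m ih => rw [← Nat.add_assoc, node_succ, ih]; rfl
  have := h4 (L - (t + 1))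
  rw [show t + 1 + (L - (t + 1)) = L by omega, hL] at this
  exact absurd this (by simp)

/-- The nodes of a path that reaches the end are distinct. -/
theorem node_injOn {v e : M.Node} {L : ℕ} (hL : M.node x O v L = some e) (he : e.2.2 = []) {s t : ℕ}
    (hst : s < t) (ht : t ≤ L) : M.node x O v s ≠ M.node x O v t := by
  intro h
  have h1 : ∀ m, M.node x O v (s + m) = M.node x O v (t + m) := by
    intro m
    induction m with
    | zero => exact h
    | succ m ih => rw [← Nat.add_assoc, ← Nat.add_assoc, node_succ, node_succ, ih]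
  have h2 := h1 (L - t)
  rw [show t + (L - t) = L by omega, hL] at h2
  obtain ⟨w, hw, hw'⟩ := node_of_le hL he (t := s + (L - t)) (by omega)
  rw [hw, Option.some.injEq] at h2
  rw [h2] at hw'
  exact hw' he

/-- The walk down follows the path. -/
theorem stepW_iterate {v e : M.Node} {L : ℕ} (hL : M.node x O v L = some e) (he : e.2.2 = [])
    {t : ℕ} (ht : t ≤ L) :
    (M.stepW x O)^[t] (some v, none) = (M.node x O v t, M.cand x O v t) := by
  induction t with
  | zero => rfl
  | succ t ih =>
    rw [Function.iterate_succ_apply', ih (by omega)]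
    obtain ⟨w, hw, hw'⟩ := node_of_le hL he (t := t) (by omega)
    unfold stepW
    simp only [hw, if_neg hw']
    rw [node_succ, hw]
    simp only [Option.bind_some]
    rw [cand, hw]

theorem stepW_iterate_ge {v e : M.Node} {L : ℕ} (hL : M.node x O v L = some e) (he : e.2.2 = [])
    {t : ℕ} (ht : L ≤ t) : ((M.stepW x O)^[t] (some v, none)).1 = some e := by
  obtain ⟨m, rfl⟩ : ∃ m, t = m + L := ⟨t - L, by omega⟩
  rw [Function.iterate_add_apply, stepW_iterate hL he le_rfl, hL]
  induction m with
  | zero => rfl
  | succ m ih =>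
    rw [Function.iterate_succ_apply]
    have : M.stepW x O (some e, M.cand x O v L) = (some e, M.cand x O v L) := by
      unfold stepW
      simp only [he, if_true]
    rw [this]
    exact ih (by omega)

/-- If the walk down ends then the path reaches the end. -/
theorem exists_of_stepW {v e : M.Node} {N : ℕ} {c : Option M.Node}
    (h : (M.stepW x O)^[N] (some v, none) = (some e, c)) (he : e.2.2 = []) :
    ∃ L ≤ N, M.node x O v L = some e := by
  have key : ∀ N, ∃ L ≤ N, M.node x O v L = ((M.stepW x O)^[N] (some v, none)).1 := by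
    intro N
    induction N with
    | zero => exact ⟨0, le_rfl, rfl⟩
    | succ N ih =>
      obtain ⟨L, hLN, hL⟩ := ih
      rw [Function.iterate_succ_apply']
      generalize (M.stepW x O)^[N] (some v, none) = p at hL
      obtain ⟨w, c⟩ := p
      simp only at hL
      cases w with
      | none => exact ⟨L, by omega, hL⟩
      | some w =>
        by_cases hw : w.2.2 = []
        · refine ⟨L, by omega, ?_⟩
          unfold stepW
          simp only [hw, if_true]
          exact hL
        · refine ⟨L + 1, by omega, ?_⟩
          unfold stepW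
          simp only [if_neg hw]
          rw [node_succ, hL]
          rfl
  obtain ⟨L, hL, h2⟩ := key N
  rw [h] at h2
  exact ⟨L, hL, h2⟩

/-- Scanning up to the node at time `s`. -/
theorem scan_iterate {v e : M.Node} {L : ℕ} (hL : M.node x O v L = some e) (he : e.2.2 = [])
    {s N : ℕ} (hs : s ≤ L) (hN : s ≤ N) :
    (M.scan x O (M.node x O v s))^[N] (some v, none) = (M.node x O v s, M.cand x O v s) := by
  have h1 : ∀ t ≤ s, (M.scan x O (M.node x O v s))^[t] (some v, none) =
      (M.node x O v t, M.cand x O v t) := by
    intro t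
    induction t with
    | zero => intro _; rfl
    | succ t ih =>
      intro ht
      rw [Function.iterate_succ_apply', ih (by omega)]
      unfold scan
      rw [if_neg (node_injOn hL he (by omega) hs)]
      have h2 := stepW_iterate hL he (t := t + 1) (by omega)
      rw [Function.iterate_succ_apply', stepW_iterate hL he (t := t) (by omega)] at h2
      exact h2
  obtain ⟨m, rfl⟩ : ∃ m, N = m + s := ⟨N - s, by omega⟩
  rw [Function.iterate_add_apply, h1 s le_rfl]
  clear hN
  induction m with
  | zero => rfl
  | succ m ih =>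
    rw [Function.iterate_succ_apply]
    have : M.scan x O (M.node x O v s) (M.node x O v s, M.cand x O v s) =
        (M.node x O v s, M.cand x O v s) := by
      unfold scan
      rw [if_pos rfl]
    rw [this]
    exact ih

variable (M x O) in
/-- `T v e L m` is the result of the node at time `L - m`. -/
noncomputable def T (v : M.Node) (e : M.Node) (L : ℕ) : ℕ → Option M.Conf
  | 0 => some (e.1, e.2.1)
  | m + 1 => match M.node x O v (L - (m + 1)) with
    | none => none
    | some w => if M.pend O w then (T v e L m).bind fun c => O (c.1, c.2, w.2.2.tail)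
      else T v e L m

/-- The way back computes the result of the root. -/
theorem asc_iterate {v e : M.Node} {L : ℕ} (hL : M.node x O v L = some e) (he : e.2.2 = [])
    {N : ℕ} (hN : L < N) :
    ((M.asc x O v N)^[N] (some e, some (e.1, e.2.1))).2 = M.T x O v e L L := by
  -- the state after `j` steps
  have hnone : ∀ m m', m ≤ m' → m' ≤ L → M.T x O v e L m = none → M.T x O v e L m' = none := by
    intro m m' hmm hm' h
    induction m', hmm using Nat.le_induction with
    | base => exact h
    | succ m' hmm ih =>
      obtain ⟨w, hw, _⟩ := node_of_le hL he (t := L - (m' + 1)) (by omega)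
      rw [T, hw]
      simp only [ih (by omega), Option.bind_none, ite_self]
  have hcand : ∀ s ≤ L, (M.cand x O v s = none → M.T x O v e L L = M.T x O v e L (L - s)) ∧
      ∀ w, M.cand x O v s = some w → ∃ t < s, M.node x O v t = some w ∧
        M.T x O v e L (L - t) = (M.T x O v e L (L - s)).bind fun c => O (c.1, c.2, w.2.2.tail) := by
    intro s
    induction s with
    | zero =>
      intro _
      refine ⟨fun _ => rfl, fun w hw => ?_⟩
      simp [cand] at hw
    | succ s ih =>
      intro hs
      obtain ⟨ih1, ih2⟩ := ih (by omega)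
      obtain ⟨w, hw, _⟩ := node_of_le hL he (t := s) (by omega)
      have hTs : M.T x O v e L (L - s) = if M.pend O w then
          (M.T x O v e L (L - (s + 1))).bind fun c => O (c.1, c.2, w.2.2.tail)
          else M.T x O v e L (L - (s + 1)) := by
        have e1 : L - s = (L - (s + 1)) + 1 := by omega
        rw [e1, T]
        have e2 : L - (L - (s + 1) + 1) = s := by omega
        rw [e2, hw]
      rw [cand, hw]
      simp only
      by_cases hp : M.pend O w
      · rw [if_pos hp] at hTs ⊢
        refine ⟨fun h => absurd h (by simp), fun w' hw' => ?_⟩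
        rw [Option.some.injEq] at hw'
        subst hw'
        exact ⟨s, by omega, hw, hTs⟩
      · rw [if_neg hp] at hTs ⊢
        rw [← hTs]
        refine ⟨ih1, fun w' hw' => ?_⟩
        obtain ⟨t, ht, h1, h2⟩ := ih2 w' hw'
        exact ⟨t, by omega, h1, h2⟩
  have key : ∀ j, (∃ s, s + j ≤ L ∧ ∃ r, M.T x O v e L (L - s) = some r ∧
        (M.asc x O v N)^[j] (some e, some (e.1, e.2.1)) = (M.node x O v s, some r)) ∨
      (((M.asc x O v N)^[j] (some e, some (e.1, e.2.1))).2 = M.T x O v e L L ∧
        M.asc x O v N ((M.asc x O v N)^[j] (some e, some (e.1, e.2.1))) =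
          (M.asc x O v N)^[j] (some e, some (e.1, e.2.1))) := by
    intro j
    induction j with
    | zero =>
      left
      refine ⟨L, le_rfl, (e.1, e.2.1), ?_, ?_⟩
      · rw [Nat.sub_self]; rfl
      · rw [hL]; rfl
    | succ j ih =>
      rw [Function.iterate_succ_apply']
      rcases ih with ⟨s, hs, r, hr, h⟩ | ⟨h1, h2⟩
      · rw [h]
        have hsn : ∃ w, M.node x O v s = some w := by
          rcases Nat.lt_or_ge s L with h' | h'
          · obtain ⟨w, hw, _⟩ := node_of_le hL he h'
            exact ⟨w, hw⟩
          · exact ⟨e, by rw [show s = L by omega]; exact hL⟩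
        obtain ⟨ws, hws⟩ := hsn
        have hscan := scan_iterate hL he (s := s) (N := N) (by omega) (by omega)
        rw [hws] at hscan ⊢
        cases hc : M.cand x O v s with
        | none =>
          right
          have e1 : M.asc x O v N (some ws, some r) = (none, some r) := by
            simp only [asc, hscan, hc]
          rw [e1]
          refine ⟨?_, rfl⟩
          rw [(hcand s (by omega)).1 hc, hr]
        | some w =>
          have e1 : M.asc x O v N (some ws, some r) = (some w, O (r.1, r.2, w.2.2.tail)) := by
            simp only [asc, hscan, hc]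
          rw [e1]
          obtain ⟨t, ht, hwt, hT⟩ := (hcand s (by omega)).2 w hc
          rw [hr, Option.bind_some] at hT
          cases hO : O (r.1, r.2, w.2.2.tail) with
          | none =>
            right
            refine ⟨?_, rfl⟩
            rw [hO] at hT
            exact (hnone _ L (by omega) le_rfl hT).symm
          | some r' =>
            left
            refine ⟨t, by omega, r', ?_, ?_⟩
            · rw [hT, hO]
            · rw [hwt]
      · right
        rw [h2]
        exact ⟨h1, h2⟩
  have hfin : ∀ j ≥ N, (((M.asc x O v N)^[j] (some e, some (e.1, e.2.1))).2 = M.T x O v e L L) := by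
    intro j hj
    rcases key j with ⟨s, hs, _⟩ | ⟨h1, _⟩
    · omega
    · exact h1
  exact hfin N le_rfl

end DPDA

end Pool.Agent.Lib.MP_9277c3_lc
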