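import Pool.Agent.Lib.MP_9277c3_lc.helper78.Algo

/-!
# Accepting runs and their Strahler numbers
-/

namespace Pool.Agent.Lib.MP_9277c3_lc

namespace DPDA

variable {α : Type} {M : DPDA α} {x : List α}

theorem Steps.trans {s t : ℕ} {c c' c'' : M.State × ℕ × List M.Stack} (h : M.Steps x s c c')
    (h' : M.Steps x t c' c'') : M.Steps x (s + t) c c'' := by
  induction h with
  | refl c => rw [Nat.zero_add]; exact h'
  | head s c c₁ c₂ h _ ih =>
    rw [Nat.add_right_comm]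
    exact Steps.head _ _ _ _ h (ih h')

/-- A run which starts in the halted state stays halted. -/
theorem Pops.none {k : ℕ} {q : Option M.State} {i : ℕ} {β : List M.Stack} {q' : Option M.State}
    {i' : ℕ} (h : M.Pops x k q i β q' i') (hq : q = Option.none) : q' = Option.none := by
  induction h with
  | nil => exact hq
  | halt => rfl
  | accept => rfl
  | step => exact absurd hq (by simp)
  | left _ _ _ _ _ _ _ _ _ _ _ _ ih₁ ih₂ => exact ih₂ (ih₁ hq)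
  | right _ _ _ _ _ _ _ _ _ _ _ _ ih₁ ih₂ => exact ih₂ (ih₁ hq)

/-- From the tree to the run. -/
theorem Pops.steps {k : ℕ} {q : Option M.State} {i : ℕ} {β : List M.Stack} {q' : Option M.State}
    {i' : ℕ} (h : M.Pops x k q i β q' i') : ∀ p, q = some p → ∀ γ,
      (∀ p', q' = some p' → ∃ t, M.Steps x t (p, i, β ++ γ) (p', i', γ)) ∧
      (q' = Option.none → ∃ t p' i' γ', M.Steps x t (p, i, β ++ γ) (p', i', γ') ∧
        M.accepting p' (cell x i')) := by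
  induction h with
  | nil k q i =>
    rintro p rfl γ
    refine ⟨fun p' hp' => ?_, fun h => absurd h (by simp)⟩
    rw [Option.some.injEq] at hp'
    subst hp'
    exact ⟨0, Steps.refl _⟩
  | halt => intro p hp; exact absurd hp (by simp)
  | accept k q i X ha =>
    rintro p hp γ
    rw [Option.some.injEq] at hp
    subst hp
    exact ⟨fun p' hp' => absurd hp' (by simp), fun _ => ⟨0, q, i, [X] ++ γ, Steps.refl _, ha⟩⟩
  | step k q i X q₁ mv β q₂ i₂ ha h₁ _ ih =>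
    rintro p hp γ
    rw [Option.some.injEq] at hp
    subst hp
    obtain ⟨ih1, ih2⟩ := ih q₁ rfl γ
    have hs : M.Step x (q, i, [X] ++ γ) (q₁, mv.apply x.length i, β ++ γ) :=
      Step.mk q i X γ q₁ mv β h₁
    refine ⟨fun p' hp' => ?_, fun h => ?_⟩
    · obtain ⟨t, ht⟩ := ih1 p' hp'
      exact ⟨t + 1, Steps.head _ _ _ _ hs ht⟩
    · obtain ⟨t, p', i', γ', ht, ha'⟩ := ih2 h
      exact ⟨t + 1, p', i', γ', Steps.head _ _ _ _ hs ht, ha'⟩
  | left k q i X β q₁ i₁ q₂ i₂ hβ g₁ g₂ ih₁ ih₂ =>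
    rintro p hp γ
    obtain ⟨a1, a2⟩ := ih₁ p hp (β ++ γ)
    cases q₁ with
    | none =>
      have hq₂ := g₂.none rfl
      refine ⟨fun p' hp' => absurd (hp'.symm.trans hq₂) (by simp), fun _ => a2 rfl⟩
    | some p₁ =>
      obtain ⟨t₁, ht₁⟩ := a1 p₁ rfl
      obtain ⟨b1, b2⟩ := ih₂ p₁ rfl γ
      refine ⟨fun p' hp' => ?_, fun h => ?_⟩
      · obtain ⟨t, ht⟩ := b1 p' hp'
        exact ⟨_, ht₁.trans ht⟩
      · obtain ⟨t, p', i', γ', ht, ha'⟩ := b2 h
        exact ⟨_, p', i', γ', ht₁.trans ht, ha'⟩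
  | right k q i X β q₁ i₁ q₂ i₂ hβ g₁ g₂ ih₁ ih₂ =>
    rintro p hp γ
    obtain ⟨a1, a2⟩ := ih₁ p hp (β ++ γ)
    cases q₁ with
    | none =>
      have hq₂ := g₂.none rfl
      refine ⟨fun p' hp' => absurd (hp'.symm.trans hq₂) (by simp), fun _ => a2 rfl⟩
    | some p₁ =>
      obtain ⟨t₁, ht₁⟩ := a1 p₁ rfl
      obtain ⟨b1, b2⟩ := ih₂ p₁ rfl γ
      refine ⟨fun p' hp' => ?_, fun h => ?_⟩
      · obtain ⟨t, ht⟩ := b1 p' hp'
        exact ⟨_, ht₁.trans ht⟩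
      · obtain ⟨t, p', i', γ', ht, ha'⟩ := b2 h
        exact ⟨_, p', i', γ', ht₁.trans ht, ha'⟩

theorem AcceptsWithin.accepts {k : ℕ} (h : M.AcceptsWithin k x) : M.Accepts x := by
  obtain ⟨q, i, hp, hq⟩ := h
  obtain ⟨h1, h2⟩ := hp.steps M.start rfl []
  cases q with
  | none =>
    obtain ⟨t, p', i', γ', ht, ha⟩ := h2 rfl
    exact ⟨t, _, p', i', γ', ht, rfl, ha⟩
  | some p =>
    obtain ⟨t, ht⟩ := h1 p rfl
    exact ⟨t, _, p, i, _, ht, rfl, hq p rfl⟩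

/-! ### From the run to the tree -/

variable (M) in
/-- Trees with a bound for the number of leaves. -/
inductive Wt (x : List α) : ℕ → Option M.State → ℕ → List M.Stack → Option M.State → ℕ → Prop
  | nil (q : Option M.State) (i : ℕ) : Wt x 0 q i [] q i
  | halt (i : ℕ) (X : M.Stack) : Wt x 1 none i [X] none i
  | accept (q : M.State) (i : ℕ) (X : M.Stack) (h : M.accepting q (cell x i)) :
      Wt x 1 (some q) i [X] none i
  | step (n : ℕ) (q : M.State) (i : ℕ) (X : M.Stack) (q₁ : M.State) (mv : Move)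
      (β : List M.Stack) (q₂ : Option M.State) (i₂ : ℕ) (h : ¬M.accepting q (cell x i))
      (h₁ : M.next q (cell x i) X = some (q₁, mv, β))
      (h₂ : Wt x n (some q₁) (mv.apply x.length i) β q₂ i₂) : Wt x (n + 1) (some q) i [X] q₂ i₂
  | cons (n₁ n₂ : ℕ) (q : Option M.State) (i : ℕ) (X : M.Stack) (β : List M.Stack)
      (q₁ : Option M.State) (i₁ : ℕ) (q₂ : Option M.State) (i₂ : ℕ) (hβ : β ≠ [])
      (h₁ : Wt x n₁ q i [X] q₁ i₁) (h₂ : Wt x n₂ q₁ i₁ β q₂ i₂) :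
      Wt x (n₁ + n₂) q i (X :: β) q₂ i₂

theorem Wt.pos {n : ℕ} {q : Option M.State} {i : ℕ} {β : List M.Stack} {q' : Option M.State}
    {i' : ℕ} (h : M.Wt x n q i β q' i') (hβ : β ≠ []) : 1 ≤ n := by
  induction h with
  | nil => exact absurd rfl hβ
  | halt => exact le_rfl
  | accept => exact le_rfl
  | step => omega
  | cons n₁ n₂ _ _ _ _ _ _ _ _ _ _ _ ih₁ _ =>
    have := ih₁ (by simp)
    omega

/-- A tree with `n` leaves has Strahler number at most `log n`. -/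
theorem Wt.pops {n : ℕ} {q : Option M.State} {i : ℕ} {β : List M.Stack} {q' : Option M.State}
    {i' : ℕ} (h : M.Wt x n q i β q' i') : ∃ k, 2 ^ k ≤ max 1 n ∧ M.Pops x k q i β q' i' := by
  induction h with
  | nil q i => exact ⟨0, by simp, Pops.nil _ _ _⟩
  | halt i X => exact ⟨0, by simp, Pops.halt _ _ _⟩
  | accept q i X h => exact ⟨0, by simp, Pops.accept _ _ _ _ h⟩
  | step n q i X q₁ mv β q₂ i₂ h h₁ _ ih =>
    obtain ⟨k, hk, hp⟩ := ih
    exact ⟨k, by omega, Pops.step _ _ _ _ _ _ _ _ _ h h₁ hp⟩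
  | cons n₁ n₂ q i X β q₁ i₁ q₂ i₂ hβ g₁ g₂ ih₁ ih₂ =>
    obtain ⟨k₁, hk₁, hp₁⟩ := ih₁
    obtain ⟨k₂, hk₂, hp₂⟩ := ih₂
    have h1 := g₁.pos (by simp)
    have h2 := g₂.pos hβ
    rcases lt_trichotomy k₁ k₂ with h | h | h
    · obtain ⟨k, rfl⟩ : ∃ k, k₂ = k + 1 := ⟨k₂ - 1, by omega⟩
      exact ⟨k + 1, by omega, Pops.left _ _ _ _ _ _ _ _ _ hβ (hp₁.mono (by omega)) hp₂⟩
    · subst h
      refine ⟨k₁ + 1, ?_, Pops.left _ _ _ _ _ _ _ _ _ hβ hp₁ hp₂.succ⟩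
      rw [pow_succ]
      omega
    · obtain ⟨k, rfl⟩ : ∃ k, k₁ = k + 1 := ⟨k₁ - 1, by omega⟩
      exact ⟨k + 1, by omega, Pops.right _ _ _ _ _ _ _ _ _ hβ hp₁ (hp₂.mono (by omega))⟩

/-- Composition. -/
theorem Wt.cons' {n₁ n₂ : ℕ} {q : Option M.State} {i : ℕ} {X : M.Stack} {β : List M.Stack}
    {q₁ : Option M.State} {i₁ : ℕ} {q₂ : Option M.State} {i₂ : ℕ}
    (h₁ : M.Wt x n₁ q i [X] q₁ i₁) (h₂ : M.Wt x n₂ q₁ i₁ β q₂ i₂) :
    M.Wt x (n₁ + n₂) q i (X :: β) q₂ i₂ := by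
  by_cases hβ : β = []
  · subst hβ
    cases h₂
    exact h₁
  · exact Wt.cons _ _ _ _ _ _ _ _ _ _ hβ h₁ h₂

/-- Decomposition. -/
theorem Wt.uncons {n : ℕ} {q : Option M.State} {i : ℕ} {X : M.Stack} {β : List M.Stack}
    {q₂ : Option M.State} {i₂ : ℕ} (h : M.Wt x n q i (X :: β) q₂ i₂) :
    ∃ n₁ n₂ q₁ i₁, n = n₁ + n₂ ∧ M.Wt x n₁ q i [X] q₁ i₁ ∧ M.Wt x n₂ q₁ i₁ β q₂ i₂ := by
  by_cases hβ : β = []
  · subst hβ
    exact ⟨n, 0, q₂, i₂, rfl, h, Wt.nil _ _⟩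
  · cases h with
    | halt => exact absurd rfl hβ
    | accept => exact absurd rfl hβ
    | step => exact absurd rfl hβ
    | cons n₁ n₂ _ _ _ _ q₁ i₁ _ _ _ g₁ g₂ => exact ⟨n₁, n₂, q₁, i₁, rfl, g₁, g₂⟩

theorem Wt.split {β γ : List M.Stack} : ∀ {n : ℕ} {q : Option M.State} {i : ℕ}
    {q₂ : Option M.State} {i₂ : ℕ}, M.Wt x n q i (β ++ γ) q₂ i₂ →
    ∃ n₁ n₂ q₁ i₁, n = n₁ + n₂ ∧ M.Wt x n₁ q i β q₁ i₁ ∧ M.Wt x n₂ q₁ i₁ γ q₂ i₂ := by
  induction β with
  | nil =>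
    intro n q i q₂ i₂ h
    exact ⟨0, n, q, i, by omega, Wt.nil _ _, h⟩
  | cons X β ih =>
    intro n q i q₂ i₂ h
    obtain ⟨n₁, n₂, q₁, i₁, rfl, h1, h2⟩ := Wt.uncons h
    obtain ⟨n₃, n₄, q₃, i₃, rfl, h3, h4⟩ := ih h2
    exact ⟨n₁ + n₃, n₄, q₃, i₃, by omega, Wt.cons' h1 h3, h4⟩

/-- What is left on the stack. -/
theorem Wt.halts (i : ℕ) (β : List M.Stack) : M.Wt x β.length none i β none i := by
  induction β with
  | nil => exact Wt.nil _ _
  | cons X β ih =>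
    rw [List.length_cons, Nat.add_comm]
    exact Wt.cons' (Wt.halt i X) ih

/-- The tree of an accepting configuration. -/
theorem Wt.accepts {q : M.State} {i : ℕ} (h : M.accepting q (cell x i)) (β : List M.Stack) :
    ∃ c : Option M.State, M.Wt x β.length (some q) i β c i ∧
      ∀ q', c = some q' → M.accepting q' (cell x i) := by
  cases β with
  | nil =>
    refine ⟨some q, Wt.nil _ _, fun q' hq' => ?_⟩
    rw [Option.some.injEq] at hq'
    subst hq'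
    exact h
  | cons X β =>
    refine ⟨none, ?_, fun q' hq' => absurd hq' (by simp)⟩
    rw [List.length_cons, Nat.add_comm]
    exact Wt.cons' (Wt.accept q i X h) (Wt.halts i β)

/-- Each step removes at most one symbol. -/
theorem Steps.length_le {t : ℕ} {c c' : M.State × ℕ × List M.Stack} (h : M.Steps x t c c') :
    c.2.2.length ≤ t + c'.2.2.length := by
  induction h with
  | refl => simp
  | head t c c₁ c₂ h _ ih =>
    cases h with
    | mk q i X γ q' mv β h =>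
      simp only [List.length_append, List.length_cons] at ih ⊢
      omega

/-- From the run to the tree. -/
theorem Steps.exists_wt {t : ℕ} {c c' : M.State × ℕ × List M.Stack} (h : M.Steps x t c c')
    (ha : M.accepting c'.1 (cell x c'.2.1)) :
    ∃ n q i, n ≤ t + c'.2.2.length ∧ M.Wt x n (some c.1) c.2.1 c.2.2 q i ∧
      ∀ q', q = some q' → M.accepting q' (cell x i) := by
  induction h with
  | refl c =>
    obtain ⟨q, h1, h2⟩ := Wt.accepts ha c.2.2
    exact ⟨_, q, _, by omega, h1, h2⟩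
  | head t c c₁ c₂ h h' ih =>
    obtain ⟨n, q₂, i₂, hn, hw, hg⟩ := ih ha
    cases h with
    | mk q i X γ q' mv β hnext =>
      by_cases hacc : M.accepting q (cell x i)
      · obtain ⟨q₃, h1, h2⟩ := Wt.accepts hacc (X :: γ)
        refine ⟨_, q₃, _, ?_, h1, h2⟩
        have h3 := h'.length_le
        simp only [List.length_append, List.length_cons] at h3 ⊢
        omega
      · obtain ⟨n₁, n₂, q₁, i₁, rfl, h1, h2⟩ := Wt.split hw
        refine ⟨n₁ + 1 + n₂, q₂, i₂, by omega, ?_, hg⟩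
        exact Wt.cons' (Wt.step _ _ _ _ _ _ _ _ _ hacc hnext h1) h2

theorem AcceptsAt.acceptsWithin {t l : ℕ} (h : M.AcceptsAt t l x) :
    M.AcceptsWithin (Nat.log 2 (t + l)) x := by
  obtain ⟨q, i, γ, hs, rfl, ha⟩ := h
  obtain ⟨n, q', i', hn, hw, hg⟩ := hs.exists_wt ha
  obtain ⟨k, hk, hp⟩ := hw.pops
  have hpos : 1 ≤ n := hw.pos (by simp)
  refine ⟨q', i', hp.mono ?_, hg⟩
  apply Nat.le_log_of_pow_le (by norm_num)
  simp only at hn
  omega

end DPDA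

end Pool.Agent.Lib.MP_9277c3_lc
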